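import Pool.Agent.Y753.SHR.R14
import Pool.Agent.Y753.SHR.R19
import Pool.Agent.Y753.SHR.Star
import Pool.Agent.Y901.SHR.Diag
import Pool.Agent.Q30.SHL.Land
import Pool.Agent.Q30.SHL.Dense

set_option autoImplicit false

/-!
MP_112ba8_nt. The landscape of `log |ζ|` around the points which carry the moments, near the critical line.
Let `δ(T) → 0`, `δ(T) log T → ∞`. Choose `t` in `[0, T]` with density proportional to `|ζ(1/2 + δ + it)|^β`. Then the
increments `log |ζ(1/2 + δ + i(t + a_j δ))| - log |ζ(1/2 + δ + it)|`, `j = 1, ..., n`, are asymptotically jointly normal,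
with means `-(β/4) L(a_j)` and covariances `(L(a_i) + L(a_j) - L(a_i - a_j))/4`, where `L(x) = log (1 + (x/2)²)`.
For `0 < β ≤ 4` this holds on all of `[0, T]`; for every `β` it holds off a small set of large values.
-/

open Filter Topology MeasureTheory ProbabilityTheory

namespace Pool.Agent.Results.MP_112ba8_nt.LocalLandscape

/-- the arithmetic factor `a(k)` of the moment conjecture, for real `k` -/
noncomputable def ak (k : ℝ) : ℝ :=
  ∏' p : Nat.Primes, ((1 - 1 / (p : ℝ)) ^ (k ^ 2) *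
    ∑' m : ℕ, (Real.Gamma (k + m) / (Real.Gamma k * (m.factorial : ℝ))) ^ 2 / (p : ℝ) ^ m)

/-- `|ζ(1/2 + δ + it)|` -/
noncomputable def az (δ t : ℝ) : ℝ := ‖riemannZeta (1 / 2 + δ + Complex.I * (t : ℂ))‖

/-- the increments `log |ζ(1/2 + δ + i(t + a_j δ))| - log |ζ(1/2 + δ + it)|` -/
noncomputable def scape {n : ℕ} (δ : ℝ) (a : Fin n → ℝ) (t : ℝ) : Fin n → ℝ :=
  fun j => Real.log (az δ (t + a j * δ)) - Real.log (az δ t)

/-- `L(x) = log (1 + (x/2)²)` -/
noncomputable def pot (x : ℝ) : ℝ := Real.log (1 + (x / 2) ^ 2)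

/-- the covariance of the increments at `x` and `y` -/
noncomputable def cov (x y : ℝ) : ℝ := (pot x + pot y - pot (x - y)) / 4

/-- `ρ` is the normal law on `ℝ^n` with means `-(β/4) L(a_j)` and covariances `cov (a_i) (a_j)`: under `ρ` every linear
form `∑ c_j y_j` is normally distributed, with the corresponding mean and variance -/
def IsLandscape {n : ℕ} (β : ℝ) (a : Fin n → ℝ) (ρ : ProbabilityMeasure (Fin n → ℝ)) : Prop :=
  ∀ c : Fin n → ℝ, 0 ≤ ∑ i, ∑ j, c i * c j * cov (a i) (a j) ∧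
    (ρ : Measure (Fin n → ℝ)).map (fun y => ∑ j, c j * y j) =
      gaussianReal (∑ j, c j * (-(β / 4) * pot (a j))) (∑ i, ∑ j, c i * c j * cov (a i) (a j)).toNNReal

lemma lc_eq {k : ℝ} (hk : 0 < k) (m : ℕ) :
    Real.Gamma (k + m) / (Real.Gamma k * (m.factorial : ℝ)) = Pool.Agent.H306R2.lc k m := by
  have hG : Real.Gamma k ≠ 0 := (Real.Gamma_pos_of_pos hk).ne'
  induction m with
  | zero =>
    unfold Pool.Agent.H306R2.lc
    simp [hG]
  | succ m ih =>
    have h1 : Pool.Agent.H306R2.lc k (m + 1) = Pool.Agent.H306R2.lc k m * ((k + m) / ((m : ℝ) + 1)) := by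
      unfold Pool.Agent.H306R2.lc
      rw [Finset.prod_range_succ]
    have hkm : k + (m : ℝ) ≠ 0 := by positivity
    have h2 : Real.Gamma (k + ((m + 1 : ℕ) : ℝ)) = (k + m) * Real.Gamma (k + m) := by
      rw [← Real.Gamma_add_one hkm]
      congr 1
      push_cast
      ring
    have hf : (m.factorial : ℝ) ≠ 0 := by positivity
    rw [h1, ← ih, h2, Nat.factorial_succ]
    push_cast
    field_simp

lemma ak_eq {k : ℝ} (hk : 0 < k) : ak k = Pool.Agent.H306R2.aF k := by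
  unfold ak Pool.Agent.H306R2.aF
  refine tprod_congr fun p => ?_
  simp_rw [lc_eq hk, one_div, inv_pow, div_eq_mul_inv]

lemma za_zero (δ t : ℝ) : Pool.Agent.Y753.SHR.za δ 0 t = az δ t := by
  unfold Pool.Agent.Y753.SHR.za az
  congr 2
  push_cast
  ring

lemma Yl_eq {n : ℕ} (δ : ℝ) (a : Fin n → ℝ) (t : ℝ) : Pool.Agent.Y753.SHL.Yl δ a t = scape δ a t := by
  ext j
  unfold Pool.Agent.Y753.SHL.Yl scape
  rw [za_zero]
  congr 2
  unfold Pool.Agent.Y753.SHR.za az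
  congr 2
  ring

lemma nor_iff {n : ℕ} {β : ℝ} {a : Fin n → ℝ} {ρ : ProbabilityMeasure (Fin n → ℝ)}
    (h : Pool.Agent.Y753.SHL.Nor (Pool.Agent.Y753.SHL.mL β a) (Pool.Agent.Y753.SHL.CL a) ρ) :
    IsLandscape β a ρ := h

/-- **The landscape at the points carrying the moments.** -/
theorem result :
    (∀ β : ℝ, 0 < β → 0 < ak (β / 2)) ∧
    -- orders at most four, complete integrals
    (∀ δ : ℝ → ℝ, Tendsto δ atTop (𝓝 0) → Tendsto (fun T : ℝ => δ T * Real.log T) atTop atTop →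
      ∀ β : ℝ, 0 < β → β ≤ 4 → ∀ (n : ℕ) (a : Fin n → ℝ),
      ∃ ρ : ProbabilityMeasure (Fin n → ℝ), IsLandscape β a ρ ∧ ∀ F : BoundedContinuousFunction (Fin n → ℝ) ℝ,
        Tendsto (fun T : ℝ => (2 * δ T) ^ (β ^ 2 / 4) *
          (1 / T * ∫ t in (0:ℝ)..T, az (δ T) t ^ β * F (scape (δ T) a t))) atTop
          (𝓝 (ak (β / 2) * ∫ y, F y ∂(ρ : Measure (Fin n → ℝ))))) ∧
    -- all orders, off a small set of large values
    (∀ δ : ℝ → ℝ, Tendsto δ atTop (𝓝 0) → Tendsto (fun T : ℝ => δ T * Real.log T) atTop atTop →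
      ∀ c : ℝ, 0 ≤ c → ∀ S B : Set ℝ, S.Countable → B.Countable → (∀ β ∈ B, 0 < β) →
      ∃ E : ℝ → Set ℝ,
        (∀ T, MeasurableSet (E T) ∧ ∀ t ∈ E T, 0 ≤ t ∧ t ≤ T ∧ (δ T) ^ (-(2 + c)) < az (δ T) t) ∧
        Tendsto (fun T => (volume (E T)).toReal / (T * (δ T) ^ (4 + 4 * c))) atTop (𝓝 0) ∧
        ∀ β ∈ B, (β ≤ 4 ∨ 4 + 4 * c ≤ β) → ∀ (n : ℕ) (a : Fin n → ℝ), (∀ j, a j ∈ S) →
        ∃ ρ : ProbabilityMeasure (Fin n → ℝ), IsLandscape β a ρ ∧ ∀ F : BoundedContinuousFunction (Fin n → ℝ) ℝ,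
          Tendsto (fun T : ℝ => (2 * δ T) ^ (β ^ 2 / 4) *
            (1 / T * ∫ t in Set.Icc 0 T \ E T, az (δ T) t ^ β * F (scape (δ T) a t))) atTop
            (𝓝 (ak (β / 2) * ∫ y, F y ∂(ρ : Measure (Fin n → ℝ))))) := by
  have e2 : ∀ β : ℝ, (β / 2) ^ 2 = β ^ 2 / 4 := fun β => by ring
  refine ⟨fun β hβ => ?_, fun δ hδ hδL β hβ hβ4 n a => ?_, fun δ hδ hδL c hc S B hS hB hB0 => ?_⟩
  · rw [ak_eq (by positivity : 0 < β / 2)]
    exact Pool.Agent.H306R2.aF_pos (by positivity)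
  · obtain ⟨ρ, hρ, h⟩ := Pool.Agent.Y753.SHL.land_full Pool.Agent.Y901.SHR.done Pool.Agent.Y753.SHR.star
      Pool.Agent.Q30.SHL.dense Pool.Agent.Q30.SHL.land hδ hδL hβ hβ4 a
    refine ⟨ρ, nor_iff hρ, fun F => ?_⟩
    rw [ak_eq (by positivity : 0 < β / 2)]
    refine (h F).congr' ?_
    filter_upwards [eventually_gt_atTop 0] with T hT
    rw [integral_Icc_eq_integral_Ioc, ← intervalIntegral.integral_of_le hT.le, e2]
    simp_rw [za_zero, Yl_eq]
    ring
  · obtain ⟨E, hE, hvol, h⟩ := Pool.Agent.Y753.SHR.land_small Pool.Agent.Y901.SHR.done Pool.Agent.Y753.SHR.star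
      Pool.Agent.Q30.SHL.dense Pool.Agent.Q30.SHL.land hδ hδL hc hS hB hB0
    refine ⟨E, fun T => ⟨(hE T).1, fun t ht => ⟨((hE T).2.1 ht).1, ((hE T).2.1 ht).2, ?_⟩⟩, hvol, ?_⟩
    · have := (hE T).2.2 t ht
      rwa [za_zero] at this
    · intro β hβ hcase n a ha
      obtain ⟨ρ, hρ, h1⟩ := h β hβ hcase n a ha
      refine ⟨ρ, nor_iff hρ, fun F => ?_⟩
      rw [ak_eq (by have := hB0 β hβ; positivity : 0 < β / 2)]
      refine (h1 F).congr fun T => ?_
      rw [e2]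
      simp_rw [za_zero, Yl_eq]
      ring

end Pool.Agent.Results.MP_112ba8_nt.LocalLandscape
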