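import Pool.Agent.Q231.RS.LLall
import Mathlib.Probability.Independence.InfinitePi

/-!
# The moments of zeta at random points

Let `X_0, X_1, ...` be pairwise independent random points, `X_n` uniformly distributed on `[n, n + 1]`. We prove, without
any hypothesis: with probability one, for every infinite set `K` of positive integers and all constants `c_k`, `k ∈ K`,
the asymptotic formulas `M_k(T) ∼ c_k (log T)^(k^2)`, `k ∈ K`, hold if and only if the averages of `|ζ(1/2 + iX_n)|^(2k)`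
over `n < N` are asymptotic to `c_k (log N)^(k^2)` for all `k ∈ K`. Hence Q1 holds if and only if its version at random
points, one in every unit interval, holds with probability one, and if and only if this has positive probability.

Proof. If the Lindelöf hypothesis is true, then the variance of the sum over the random points is at most `N^ε` times the
integral, and the strong law follows along a subsequence. If it is false, then large values persist: there are infinitely
many unit intervals `[n, n + 1]` on a fixed proportion of which `|ζ| > n^κ` (starting library), by a Borel-Cantelli lemma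
for pairwise independent events the random points fall infinitely often into these sets, and both sides fail.
-/

set_option autoImplicit false

open MeasureTheory ProbabilityTheory Filter Topology Set

namespace Pool.Agent.Results.MP_112ba8_nt.MomentsAtRandomPoints

/-- `M_k(T)` -/
noncomputable def M (k : ℕ) (T : ℝ) : ℝ :=
  1 / T * ∫ t in (0 : ℝ)..T, ‖riemannZeta (1 / 2 + t * Complex.I)‖ ^ (2 * k)

/-- The average of `|ζ(1/2 + i x_n)|^(2k)` over `n < N`. -/
noncomputable def R (x : ℕ → ℝ) (k : ℕ) (N : ℕ) : ℝ :=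
  1 / N * ∑ n ∈ Finset.range N, ‖riemannZeta (1 / 2 + x n * Complex.I)‖ ^ (2 * k)

/-- `M_k(T) / (log T)^(k^2)` tends to `c`. -/
def Formula (k : ℕ) (c : ℝ) : Prop := Tendsto (fun T : ℝ => M k T / Real.log T ^ (k ^ 2)) atTop (𝓝 c)

/-- The same at the points `x_n`. -/
def FormulaAt (x : ℕ → ℝ) (k : ℕ) (c : ℝ) : Prop :=
  Tendsto (fun N : ℕ => R x k N / Real.log N ^ (k ^ 2)) atTop (𝓝 c)

/-- `X_n` is uniformly distributed on `[n, n + 1]`, and the `X_n` are pairwise independent. -/
structure RandomPoints {Ω : Type} [MeasurableSpace Ω] (P : Measure Ω) (X : ℕ → Ω → ℝ) : Prop where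
  meas : ∀ n, Measurable (X n)
  law : ∀ n : ℕ, P.map (X n) = volume.restrict (Icc (n : ℝ) (n + 1))
  ind : Pairwise fun i j => IndepFun (X i) (X j) P

/-- the product measure on the sequences of points of `[0, 1]` -/
noncomputable def Cube : Measure (ℕ → ℝ) := Measure.infinitePi fun _ : ℕ => (volume.restrict (Icc (0 : ℝ) 1))

open Pool.Agent.Q231.RS

lemma upts {Ω : Type} [MeasurableSpace Ω] {P : Measure Ω} {X : ℕ → Ω → ℝ} (h : RandomPoints P X) : UPts P X :=
  ⟨h.meas, h.law, h.ind⟩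

instance inst1 : IsProbabilityMeasure (volume.restrict (Icc (0 : ℝ) 1)) := ⟨by simp⟩

instance inst2 : IsProbabilityMeasure Cube := by
  unfold Cube
  infer_instance

/-- the points `n + θ_n` for a random sequence `θ` -/
lemma cube_points : RandomPoints Cube fun (n : ℕ) (θ : ℕ → ℝ) => (n : ℝ) + θ n where
  meas := fun n => by fun_prop
  law := by
    intro n
    have h1 : Cube.map (fun θ : ℕ → ℝ => θ n) = volume.restrict (Icc (0 : ℝ) 1) :=
      Measure.infinitePi_map_eval (fun _ : ℕ => (volume.restrict (Icc (0 : ℝ) 1))) n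
    have h2 : Cube.map (fun θ : ℕ → ℝ => (n : ℝ) + θ n) =
        (Cube.map (fun θ : ℕ → ℝ => θ n)).map (fun x : ℝ => (n : ℝ) + x) := by
      rw [Measure.map_map (by fun_prop) (by fun_prop)]
      rfl
    rw [h2, h1]
    ext E hE
    rw [Measure.map_apply (by fun_prop) hE, Measure.restrict_apply ((by fun_prop : Measurable fun x : ℝ => (n : ℝ) + x) hE),
      Measure.restrict_apply hE]
    have h3 : (fun x : ℝ => (n : ℝ) + x) ⁻¹' E ∩ Icc 0 1 = (fun x : ℝ => (n : ℝ) + x) ⁻¹' (E ∩ Icc (n : ℝ) (n + 1)) := by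
      ext x
      simp only [mem_inter_iff, mem_preimage, mem_Icc]
      constructor
      · rintro ⟨a1, a2, a3⟩
        exact ⟨a1, by linarith, by linarith⟩
      · rintro ⟨a1, a2, a3⟩
        exact ⟨a1, by linarith, by linarith⟩
    rw [h3, measure_preimage_add]
  ind := by
    intro i j hij
    have h1 : iIndepFun (fun (n : ℕ) (θ : ℕ → ℝ) => (n : ℝ) + θ n) Cube := by
      unfold Cube
      exact iIndepFun_infinitePi (P := fun _ : ℕ => (volume.restrict (Icc (0 : ℝ) 1)))
        (X := fun (n : ℕ) (x : ℝ) => (n : ℝ) + x) (fun n => by fun_prop)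
    exact h1.indepFun hij

lemma f_eq (k : ℕ) (t : ℝ) : ‖riemannZeta (1 / 2 + t * Complex.I)‖ ^ (2 * k) =
    Pool.Agent.W188.Mom.Z t ^ (2 * (k : ℝ)) := by
  unfold Pool.Agent.W188.Mom.Z
  rw [← Real.rpow_natCast]
  push_cast
  rfl

lemma log_eq (k : ℕ) (x : ℝ) : Real.log x ^ ((k : ℝ) ^ 2) = Real.log x ^ (k ^ 2) := by
  have h := Real.rpow_natCast (Real.log x) (k ^ 2)
  push_cast at h
  exact h

lemma formula_iff (k : ℕ) (c : ℝ) : Formula k c ↔ AsyM k c := by
  unfold Formula AsyM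
  refine tendsto_congr fun T => ?_
  unfold M gA
  simp only [f_eq, log_eq]
  rw [div_mul_eq_mul_div, one_mul, div_div]

lemma formulaAt_iff {Ω : Type} [MeasurableSpace Ω] (X : ℕ → Ω → ℝ) (ω : Ω) (k : ℕ) (c : ℝ) :
    FormulaAt (fun n => X n ω) k c ↔ AsyS X k c ω := by
  unfold FormulaAt AsyS
  refine tendsto_congr fun N => ?_
  unfold R gA
  simp only [f_eq, log_eq]
  rw [div_mul_eq_mul_div, one_mul, div_div]

/-- **The moments of zeta at random points.** -/
theorem result (Ω : Type) [MeasurableSpace Ω] (P : Measure Ω) [IsProbabilityMeasure P] (X : ℕ → Ω → ℝ)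
    (h : RandomPoints P X) :
    -- with probability one the formulas for any infinite set of orders are equivalent to those at the random points
    (∀ᵐ ω ∂P, ∀ K : Set ℕ, K.Infinite → (∀ k ∈ K, 1 ≤ k) → ∀ c : ℕ → ℝ,
      (∀ k ∈ K, Formula k (c k)) ↔ ∀ k ∈ K, FormulaAt (fun n => X n ω) k (c k)) ∧
    -- Q1
    ((∀ k : ℕ, 3 ≤ k → ∃ c : ℝ, 0 < c ∧ Formula k c) ↔
      ∀ᵐ ω ∂P, ∀ k : ℕ, 3 ≤ k → ∃ c : ℝ, 0 < c ∧ FormulaAt (fun n => X n ω) k c) ∧
    -- Q1 with positive probability
    ((∀ k : ℕ, 3 ≤ k → ∃ c : ℝ, 0 < c ∧ Formula k c) ↔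
      ¬ ∀ᵐ ω ∂P, ¬ ∀ k : ℕ, 3 ≤ k → ∃ c : ℝ, 0 < c ∧ FormulaAt (fun n => X n ω) k c) ∧
    -- under the Lindelöf hypothesis the sums over the random points are asymptotic to the integrals, for all orders
    ((∀ ε : ℝ, 0 < ε → ∃ C : ℝ, ∀ t : ℝ, 0 ≤ t → ‖riemannZeta (1 / 2 + t * Complex.I)‖ ≤ C * (1 + t) ^ ε) →
      ∀ β : ℝ, 1 ≤ β → ∀ᵐ ω ∂P, Tendsto (fun N : ℕ =>
        (∑ n ∈ Finset.range N, ‖riemannZeta (1 / 2 + X n ω * Complex.I)‖ ^ β) /
          ∫ t in (0 : ℝ)..N, ‖riemannZeta (1 / 2 + t * Complex.I)‖ ^ β) atTop (𝓝 1)) ∧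
    -- such points exist: `n + θ_n` for almost every sequence `θ` of points of `[0, 1]`
    RandomPoints Cube (fun (n : ℕ) (θ : ℕ → ℝ) => (n : ℝ) + θ n) := by
  have hall : ∀ᵐ ω ∂P, ∀ K : Set ℕ, K.Infinite → (∀ k ∈ K, 1 ≤ k) → ∀ c : ℕ → ℝ,
      (∀ k ∈ K, Formula k (c k)) ↔ ∀ k ∈ K, FormulaAt (fun n => X n ω) k (c k) := by
    filter_upwards [all_ae (upts h)] with ω hω K hK hK1 c
    simp only [formula_iff, formulaAt_iff]
    exact hω K hK hK1 c
  have hQ : ∀ᵐ ω ∂P, (∀ k : ℕ, 3 ≤ k → ∃ c : ℝ, 0 < c ∧ Formula k c) ↔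
      ∀ k : ℕ, 3 ≤ k → ∃ c : ℝ, 0 < c ∧ FormulaAt (fun n => X n ω) k c := by
    filter_upwards [hall] with ω hω
    have hK : (Ici 3 : Set ℕ).Infinite := Ici_infinite 3
    have hK1 : ∀ k ∈ (Ici 3 : Set ℕ), 1 ≤ k := fun k hk => le_trans (by norm_num) (mem_Ici.1 hk)
    have hchoose : ∀ F : ℕ → ℝ → Prop, (∀ k : ℕ, 3 ≤ k → ∃ c : ℝ, 0 < c ∧ F k c) ↔
        ∃ c : ℕ → ℝ, (∀ k, 3 ≤ k → 0 < c k) ∧ ∀ k ∈ (Ici 3 : Set ℕ), F k (c k) := by
      intro F
      constructor
      · intro hF
        choose! c hc using hF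
        exact ⟨c, fun k hk => (hc k hk).1, fun k hk => (hc k hk).2⟩
      · rintro ⟨c, hc1, hc2⟩ k hk
        exact ⟨c k, hc1 k hk, hc2 k hk⟩
    rw [hchoose Formula, hchoose (FormulaAt fun n => X n ω)]
    exact exists_congr fun c => and_congr_right fun _ => hω _ hK hK1 c
  refine ⟨hall, ?_, ?_, ?_, cube_points⟩
  · constructor
    · intro h1
      filter_upwards [hQ] with ω hω
      exact hω.1 h1
    · intro h1
      obtain ⟨ω, hω1, hω2⟩ := (h1.and hQ).exists
      exact hω2.2 hω1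
  · constructor
    · intro h1 h2
      obtain ⟨ω, hω1, hω2⟩ := (h2.and hQ).exists
      exact hω1 (hω2.1 h1)
    · intro h1
      by_contra h2
      apply h1
      filter_upwards [hQ] with ω hω h3
      exact h2 (hω.2 h3)
  · intro hLH β hβ
    refine lln_of_lh (upts h) (fun ε hε => ?_) hβ
    obtain ⟨C, hC⟩ := hLH ε hε
    refine ⟨C, fun t ht => ?_⟩
    rw [zero_add]
    exact hC t ht

end Pool.Agent.Results.MP_112ba8_nt.MomentsAtRandomPoints
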