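import Pool.Agent.Y753.NL.Pw6

set_option autoImplicit false

/-!
MP_112ba8_nt. Powers of zeta and short Dirichlet polynomials, near the critical line. Let `δ(T) → 0`,
`δ(T) log T → ∞`. There are sets `U(T) ⊆ [0, T]` of measure `(1 + o(1)) T` such that the moments of `ζ(1/2 + δ + it)` over
`U(T)` have the expected asymptotics for all real orders, and such that for every integer `k ≥ 1` and every length
`N(T) ≤ T` with `δ(T) log N(T) → ∞` the power `ζ(1/2 + δ + it)^k` differs from its Dirichlet polynomial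
`∑_{n ≤ N} d_k(n) n^(-1/2-δ-it)` by a function whose mean square over `U(T)` is negligible against the `2k`-th moment.
-/

open Filter Topology MeasureTheory

namespace Pool.Agent.Results.MP_112ba8_nt.PowersByPolynomials

open Pool.Agent.Y753.NL Pool.Agent.Y755

/-- the arithmetic factor `a(κ)` of the moment of order `2κ` -/
noncomputable def ak (κ : ℝ) : ℝ :=
  ∏' p : Nat.Primes, ((1 - 1 / (p : ℝ)) ^ (κ ^ 2) *
    ∑' m : ℕ, (∏ i ∈ Finset.range m, (κ + i) / ((i : ℝ) + 1)) ^ 2 * (1 / (p : ℝ)) ^ m)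

/-- the mass -/
theorem mass_V {δ : ℝ → ℝ} (hδ0 : Tendsto δ atTop (𝓝 0))
    (hδL : Tendsto (fun T => δ T * Real.log T) atTop atTop)
    {U : ℝ → Set ℝ} {N : ℝ → ℕ} (hN : Tendsto N atTop atTop) (hU : ∀ᶠ T in atTop, Stg2 (N T) T (δ T) (U T))
    {α : ℝ} (hα : 0 < α) :
    Tendsto (fun T => (2 * δ T) ^ (α ^ 2) * ((∫ t in U T, Pool.Agent.W184.zn (1 / 2 + δ T) t ^ (2 * α)) / T)) atTop
      (𝓝 (Pool.Agent.H306R2.aF α)) := by
  have hpos : ∀ᶠ T in atTop, 0 < δ T := by
    filter_upwards [hδL.eventually_gt_atTop 0, eventually_gt_atTop 1] with T hT hT1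
    exact (pos_iff_pos_of_mul_pos hT).mpr (Real.log_pos hT1)
  have hD := DD_asym hα hpos hδ0
  set I : ℝ → ℝ := fun T => (∫ t in U T, Pool.Agent.W184.zn (1 / 2 + δ T) t ^ (2 * α)) / T with hI
  have hr : Tendsto (fun T => I T / DD α (δ T)) atTop (nhds 1) := by
    rw [tendsto_iff_norm_sub_tendsto_zero]
    refine squeeze_zero' (Eventually.of_forall fun T => norm_nonneg _) ?_ (inv_N hN)
    obtain ⟨k, hk⟩ := exists_nat_ge α
    filter_upwards [hU, hpos, hN.eventually_ge_atTop k, eventually_gt_atTop 0] with T hT hT0 hNk hTp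
    have hNk' : (k:ℝ) ≤ N T := by exact_mod_cast hNk
    have g1 := hT.2.1 α hα (by linarith)
    have hD1 := DD_ge_one hα hT0
    have hD0 : 0 < DD α (δ T) := by linarith
    rw [Real.norm_eq_abs]
    have e1 : I T / DD α (δ T) - 1 = ((∫ t in U T, Pool.Agent.W184.zn (1 / 2 + δ T) t ^ (2 * α)) - T * DD α (δ T)) /
        (T * DD α (δ T)) := by
      rw [hI]; field_simp
    rw [e1, abs_div, abs_of_pos (by positivity : 0 < T * DD α (δ T)), div_le_iff₀ (by positivity)]
    exact g1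
  have h3 := hD.mul hr
  rw [mul_one] at h3
  refine h3.congr' ?_
  filter_upwards [hpos] with T hT
  have hD1 := DD_ge_one hα hT
  have : DD α (δ T) ≠ 0 := by linarith
  show _ = (2 * δ T) ^ (α ^ 2) * I T
  field_simp

/-- **Powers of zeta and their Dirichlet polynomials.** Here `(ArithmeticFunction.zeta ^ k) n = d_k(n)` is the number of
the representations of `n` as a product of `k` positive integers. -/
theorem result (δ : ℝ → ℝ) (hδ : Tendsto δ atTop (𝓝 0))
    (hδL : Tendsto (fun T : ℝ => δ T * Real.log T) atTop atTop) :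
    ∃ U : ℝ → Set ℝ, (∀ T, MeasurableSet (U T)) ∧ (∀ᶠ T in atTop, U T ⊆ Set.Icc 0 T) ∧
      Tendsto (fun T => volume.real (U T) / T) atTop (𝓝 1) ∧
      -- all moments over `U(T)`
      (∀ κ : ℝ, 0 < κ → Tendsto (fun T => (2 * δ T) ^ (κ ^ 2) *
        (1 / T * ∫ t in U T, ‖riemannZeta (1 / 2 + δ T + Complex.I * (t : ℂ))‖ ^ (2 * κ))) atTop (𝓝 (ak κ))) ∧
      -- the approximation of the powers
      ∀ k : ℕ, 1 ≤ k → ∀ N : ℝ → ℕ, (∀ᶠ T in atTop, (N T : ℝ) ≤ T) →
        Tendsto (fun T => δ T * Real.log (N T)) atTop atTop →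
        Tendsto (fun T => (2 * δ T) ^ (k ^ 2) * (1 / T * ∫ t in U T,
          ‖riemannZeta (1 / 2 + δ T + Complex.I * (t : ℂ)) ^ k -
            ∑ n ∈ Finset.Icc 1 (N T), (((ArithmeticFunction.zeta ^ k) n : ℕ) : ℂ) *
              (n : ℂ) ^ (-(1 / 2 + δ T + Complex.I * (t : ℂ)))‖ ^ 2)) atTop (𝓝 0) := by
  obtain ⟨U, M, hM, hUm, hU⟩ := path_V hδ hδL
  refine ⟨U, hUm, ?_, ?_, ?_, ?_⟩
  · filter_upwards [hU] with T hT
    exact hT.1.2.1
  · have h1 : Tendsto (fun T => 1 - 1 / ((M T : ℝ) + 1)) atTop (𝓝 (1 - 0)) := tendsto_const_nhds.sub (inv_N hM)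
    rw [sub_zero] at h1
    refine tendsto_of_tendsto_of_tendsto_of_le_of_le' h1 tendsto_const_nhds ?_ ?_
    · filter_upwards [hU, eventually_gt_atTop 0] with T hT hT0
      have h2 := hT.1.2.2
      have h3 : volume.real (Set.Icc 0 T \ U T) = T - volume.real (U T) := by
        rw [measureReal_sdiff hT.1.2.1 (hUm T) measure_Icc_lt_top.ne]
        rw [Real.volume_real_Icc_of_le hT0.le, sub_zero]
      rw [h3] at h2
      rw [le_div_iff₀ hT0]
      have h4 : (1 - 1 / ((M T : ℝ) + 1)) * T = T - T / (M T + 1) := by ring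
      rw [h4]; linarith
    · filter_upwards [hU, eventually_gt_atTop 0] with T hT hT0
      rw [div_le_one hT0]
      have h2 := measureReal_mono (μ := volume) hT.1.2.1 measure_Icc_lt_top.ne
      rwa [Real.volume_real_Icc_of_le hT0.le, sub_zero] at h2
  · intro κ hκ
    refine (mass_V hδ hδL hM hU hκ).congr fun T => ?_
    have e : ∀ t : ℝ, Pool.Agent.W184.zn (1 / 2 + δ T) t = ‖riemannZeta (1 / 2 + δ T + Complex.I * (t : ℂ))‖ := by
      intro t
      unfold Pool.Agent.W184.zn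
      congr 2
      push_cast
      ring
    simp_rw [e]
    ring
  · intro k hk N hN hN'
    refine (appr hδ hδL hM hU hk hN hN').congr fun T => ?_
    have e : ∀ t : ℝ, (1 / 2 + δ T + t * Complex.I : ℂ) = 1 / 2 + δ T + Complex.I * (t : ℂ) := fun t => by ring
    have e1 : ∀ t : ℝ, es (1 / 2 + δ T + t * Complex.I) (DN k (N T)) =
        ∑ n ∈ Finset.Icc 1 (N T), (((ArithmeticFunction.zeta ^ k) n : ℕ) : ℂ) *
              (n : ℂ) ^ (-(1 / 2 + δ T + Complex.I * (t : ℂ))) := by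
      intro t
      unfold DN
      rw [map_sum]
      refine Finset.sum_congr rfl fun n _ => ?_
      rw [es_single, dv_nat, e]
      push_cast
      rfl
    have e2 : (2 * δ T) ^ ((k : ℝ) ^ 2) = (2 * δ T) ^ (k ^ 2) := by
      rw [show ((k : ℝ) ^ 2) = ((k ^ 2 : ℕ) : ℝ) by push_cast; rfl, Real.rpow_natCast]
    simp_rw [e1, e, e2]
    ring

end Pool.Agent.Results.MP_112ba8_nt.PowersByPolynomials
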