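import Mathlib
import Pool.Agent.Q85.Mom.Near

set_option autoImplicit false

/-!
# The moments of zeta from arbitrary samples

For every real `p ≥ 1` (in particular `p = 2k`) the `p`-th moment of `ζ(1/2+it)` over `[a, b] ⊆ [T, 8T]` and
the Riemann sum of `|ζ(1/2+it)|^p` over any partition of `[a, b]` of mesh `≤ δ / log T` with any tags differ, after taking
`p`-th roots, by at most `p^{-1/p} δ (1/2 + C / log T)` times the `p`-th root of the moment over
`[a - log T, b + log T]`, with an absolute constant `C`.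
-/

open Filter Topology Set MeasureTheory

namespace Pool.Agent.Results.MP_112ba8_nt.RiemannSums

/-- the value `ζ(1/2 + it)` -/
noncomputable def z (t : ℝ) : ℂ := riemannZeta (1 / 2 + t * Complex.I)

open Pool.Agent.Q85.Mom

theorem result : ∃ C T₀ : ℝ, 0 < C ∧ ∀ (p T a b δ : ℝ) (n : ℕ) (t x : ℕ → ℝ), 1 ≤ p → T₀ ≤ T →
    T ≤ a → a + C ^ p ≤ b → b ≤ 8 * T →
    -- a partition of `[a, b]` with mesh at most `δ / log T` and tags
    t 0 = a → t n = b → (∀ j < n, t j ≤ x j ∧ x j ≤ t (j + 1)) →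
    (∀ j < n, t (j + 1) - t j ≤ δ / Real.log T) →
    |(∑ j ∈ Finset.range n, (t (j + 1) - t j) * ‖z (x j)‖ ^ p) ^ (1 / p) -
        (∫ s in a..b, ‖z s‖ ^ p) ^ (1 / p)| ≤
      δ * (1 / 2 + C / Real.log T) / p ^ (1 / p) *
        (∫ s in (a - Real.log T)..(b + Real.log T), ‖z s‖ ^ p) ^ (1 / p) := by
  obtain ⟨C, T₀, hC, hT₀, hB⟩ := blk
  refine ⟨C, T₀, by linarith, fun p T a b δ n t x hp hT ha hab hb ht0 htn hx hmesh => ?_⟩
  have hp0 : 0 < p := by linarith
  have hT3 : 3 ≤ T := hT₀.trans hT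
  have hℓ1 : 1 ≤ Real.log T := by
    have h1 : Real.log (Real.exp 1) ≤ Real.log T := by
      apply Real.log_le_log (Real.exp_pos _)
      have := Real.exp_one_lt_d9
      linarith
    rwa [Real.log_exp] at h1
  set ℓ : ℝ := Real.log T with hℓ
  set h : ℝ := δ / ℓ with hh
  have hCp : 0 < C ^ p := Real.rpow_pos_of_pos (by linarith) _
  have hab' : a ≤ b := by linarith
  have hn : 0 < n := by
    rcases Nat.eq_zero_or_pos n with h1 | h1
    · rw [h1, ht0] at htn
      linarith
    · exact h1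
  have hle : ∀ j < n, t j ≤ t (j + 1) := fun j hj => (hx j hj).1.trans (hx j hj).2
  have hh0 : 0 ≤ h := by
    have h1 := hmesh 0 hn
    have h2 := hle 0 hn
    linarith
  obtain ⟨-, -, h1, -⟩ := hB p T a b (ℓ / 2) hp hT ha hab hb (by linarith) (by linarith)
  rw [show ℓ - ℓ / 2 = ℓ / 2 by ring, max_self] at h1
  set lam : ℝ := ℓ / 2 with hlam
  have hfc := ff_cont lam
  have hf1c := ff1_cont lam
  have hzn : ∀ s, ‖z s‖ = ‖ff lam s‖ := fun s => (norm_ff lam s).symm
  -- local quantities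
  set u : ℕ → ℝ := fun j => nrm p (t j) (t (j + 1)) (ff lam) with hu
  set v : ℕ → ℝ := fun j => nrm p (t j) (t (j + 1)) (fun _ => ff lam (x j)) with hv
  set d : ℕ → ℝ := fun j => nrm p (t j) (t (j + 1)) (fun s => ff lam s - ff lam (x j)) with hd
  have hu0 : ∀ j < n, 0 ≤ u j := fun j hj => nrm_nonneg (hle j hj) _
  have hv0 : ∀ j < n, 0 ≤ v j := fun j hj => nrm_nonneg (hle j hj) _
  have hd0 : ∀ j < n, 0 ≤ d j := fun j hj => nrm_nonneg (hle j hj) _
  have huv : ∀ j < n, u j ≤ v j + d j := by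
    intro j hj
    have h2 := nrm_add hp (hle j hj) (F := fun _ => ff lam (x j))
      (G := fun s => ff lam s - ff lam (x j)) continuous_const (hfc.sub continuous_const)
    have e : (fun s => ff lam (x j) + (ff lam s - ff lam (x j))) = ff lam := by
      funext s; ring
    rw [e] at h2
    exact h2
  have hvu : ∀ j < n, v j ≤ u j + d j := by
    intro j hj
    have h2 := nrm_add hp (hle j hj) (F := ff lam)
      (G := fun s => -(ff lam s - ff lam (x j))) hfc (hfc.sub continuous_const).neg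
    have e : (fun s => ff lam s + -(ff lam s - ff lam (x j))) = fun _ => ff lam (x j) := by
      funext s; ring
    have e2 : nrm p (t j) (t (j + 1)) (fun s => -(ff lam s - ff lam (x j))) = d j := by
      apply nrm_congr (hle j hj)
      intro s _
      rw [norm_neg]
    rw [e, e2] at h2
    exact h2
  have hsumu : ∑ j ∈ Finset.range n, u j ^ p = ∫ s in a..b, ‖z s‖ ^ p := by
    have h2 : ∀ j ∈ Finset.range n, u j ^ p = ∫ s in (t j)..(t (j + 1)), ‖z s‖ ^ p := by
      intro j hj
      simp only [hu, nrm_pow hp0 (hle j (Finset.mem_range.1 hj)), hzn]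
    rw [Finset.sum_congr rfl h2, intervalIntegral.sum_integral_adjacent_intervals, ht0, htn]
    intro k _
    exact (cont_pow hp0.le z_cont).intervalIntegrable _ _
  have hsumv : ∑ j ∈ Finset.range n, v j ^ p =
      ∑ j ∈ Finset.range n, (t (j + 1) - t j) * ‖z (x j)‖ ^ p := by
    apply Finset.sum_congr rfl
    intro j hj
    simp only [hv, nrm_pow hp0 (hle j (Finset.mem_range.1 hj)), intervalIntegral.integral_const,
      smul_eq_mul, hzn]
  have hsumd : ∑ j ∈ Finset.range n, d j ^ p ≤ h ^ p / p * ∫ s in a..b, ‖ff1 lam s‖ ^ p := by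
    have h2 : ∀ j ∈ Finset.range n, d j ^ p ≤
        h ^ p / p * ∫ s in (t j)..(t (j + 1)), ‖ff1 lam s‖ ^ p := by
      intro j hj
      have hj' := Finset.mem_range.1 hj
      simp only [hd, nrm_pow hp0 (hle j hj')]
      refine (poin hp (ff_der lam) hf1c (hx j hj').1 (hx j hj').2).trans ?_
      apply mul_le_mul_of_nonneg_right _ (int_nonneg (hle j hj') _)
      apply div_le_div_of_nonneg_right _ hp0.le
      exact Real.rpow_le_rpow (by linarith [hle j hj']) (hmesh j hj') hp0.le
    refine (Finset.sum_le_sum h2).trans (le_of_eq ?_)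
    rw [← Finset.mul_sum, intervalIntegral.sum_integral_adjacent_intervals, ht0, htn]
    intro k _
    exact (cont_pow hp0.le hf1c).intervalIntegrable _ _
  have hD : (∑ j ∈ Finset.range n, d j ^ p) ^ (1 / p) ≤ h / p ^ (1 / p) * nrm p a b (ff1 lam) := by
    have h0 : 0 ≤ ∑ j ∈ Finset.range n, d j ^ p :=
      Finset.sum_nonneg fun j hj => Real.rpow_nonneg (hd0 j (Finset.mem_range.1 hj)) _
    refine (Real.rpow_le_rpow h0 hsumd (by positivity)).trans (le_of_eq ?_)
    rw [Real.mul_rpow (by positivity) (int_nonneg hab' _), Real.div_rpow (by positivity) hp0.le,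
      ← Real.rpow_mul hh0, mul_one_div, div_self hp0.ne', Real.rpow_one]
    rfl
  have hfin : h / p ^ (1 / p) * nrm p a b (ff1 lam) ≤
      δ * (1 / 2 + C / ℓ) / p ^ (1 / p) * (∫ s in (a - ℓ)..(b + ℓ), ‖z s‖ ^ p) ^ (1 / p) := by
    rw [nrm_ff1]
    calc h / p ^ (1 / p) * nrm p a b (F1 lam)
        ≤ h / p ^ (1 / p) * ((lam + C) * nrm p (a - ℓ) (b + ℓ) Pool.Agent.Q85.Mom.z) :=
          mul_le_mul_of_nonneg_left h1 (by positivity)
      _ = _ := by
          rw [← mul_assoc]
          congr 1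
          rw [hh, hlam]
          field_simp
  have hmink1 : (∑ j ∈ Finset.range n, u j ^ p) ^ (1 / p) ≤
      (∑ j ∈ Finset.range n, v j ^ p) ^ (1 / p) + (∑ j ∈ Finset.range n, d j ^ p) ^ (1 / p) := by
    have h2 := Real.Lp_add_le_of_nonneg (s := Finset.range n) (f := v) (g := d) hp
      (fun j hj => hv0 j (Finset.mem_range.1 hj)) (fun j hj => hd0 j (Finset.mem_range.1 hj))
    refine le_trans ?_ h2
    apply Real.rpow_le_rpow (Finset.sum_nonneg fun j hj =>
      Real.rpow_nonneg (hu0 j (Finset.mem_range.1 hj)) _) _ (by positivity)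
    apply Finset.sum_le_sum
    intro j hj
    exact Real.rpow_le_rpow (hu0 j (Finset.mem_range.1 hj)) (huv j (Finset.mem_range.1 hj)) hp0.le
  have hmink2 : (∑ j ∈ Finset.range n, v j ^ p) ^ (1 / p) ≤
      (∑ j ∈ Finset.range n, u j ^ p) ^ (1 / p) + (∑ j ∈ Finset.range n, d j ^ p) ^ (1 / p) := by
    have h2 := Real.Lp_add_le_of_nonneg (s := Finset.range n) (f := u) (g := d) hp
      (fun j hj => hu0 j (Finset.mem_range.1 hj)) (fun j hj => hd0 j (Finset.mem_range.1 hj))
    refine le_trans ?_ h2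
    apply Real.rpow_le_rpow (Finset.sum_nonneg fun j hj =>
      Real.rpow_nonneg (hv0 j (Finset.mem_range.1 hj)) _) _ (by positivity)
    apply Finset.sum_le_sum
    intro j hj
    exact Real.rpow_le_rpow (hv0 j (Finset.mem_range.1 hj)) (hvu j (Finset.mem_range.1 hj)) hp0.le
  rw [hsumu, hsumv] at hmink1 hmink2
  rw [abs_le]
  constructor <;> linarith

end Pool.Agent.Results.MP_112ba8_nt.RiemannSums
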